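import Pool.Agent.H5.Tri.GlueSS
import Pool.Agent.H19.TriS.SmoothS
import Pool.Agent.H24.Tri.SG
import Pool.Agent.H24.Tri.RL
import Pool.Agent.H34.Tri.Final
import Pool.Agent.H1.Tri.FinE

/-! Project TRI: smoothS, smoothG and the hypotheses of the final assembly, all proved. -/

set_option autoImplicit false

open MeasureTheory Set Complex Metric Filter Topology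
open scoped Real ENNReal NNReal FourierTransform ComplexConjugate

namespace Pool.Agent.H24.Tri

theorem smoothS (ρ : ℂ) (hi : ρ.im ≠ 0) (h0 : ρ.re ≠ 0) (h1 : ρ.re ≠ 1) :
    ∀ V ε : ℝ, 0 < V → 0 < ε → ∃ R₀ : ℝ, 1 ≤ R₀ ∧ ∀ R : ℝ, R₀ ≤ R →
      ∀ a₁ a₂ a₃ : ℂ → ℂ, Nice a₁ → Nice a₂ → Nice a₃ →
      (∀ z, ‖𝓕⁻ a₁ z‖ ≤ 1) → (∀ z, ‖𝓕⁻ a₂ z‖ ≤ 1) → (∀ z, ‖𝓕⁻ a₃ z‖ ≤ 1) →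
      (∫ ξ, ‖a₁ ξ‖ ^ 2) ≤ V → (∫ ξ, ‖a₂ ξ‖ ^ 2) ≤ V → (∫ ξ, ‖a₃ ξ‖ ^ 2) ≤ V →
      ‖Lam ρ (𝓕⁻ a₁) (𝓕⁻ a₂) (𝓕⁻ a₃) 0 - LamK ρ (PR R) (𝓕⁻ a₁) (𝓕⁻ a₂) (𝓕⁻ a₃)‖ ≤ ε := by
  refine smoothS_of ρ hi h0 h1 (ss ρ hi h0 h1) (ss (1 - ρ) ?_ ?_ ?_)
  · simpa using hi
  · simp only [Complex.sub_re, Complex.one_re]
    intro h
    exact h1 (by linarith)
  · simp only [Complex.sub_re, Complex.one_re]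
    intro h
    exact h0 (by linarith)

theorem smoothG (ρ : ℂ) (hi : ρ.im ≠ 0) (h0 : ρ.re ≠ 0) (h1 : ρ.re ≠ 1) :
    ∀ D ε : ℝ, 0 < D → 0 < ε → ∃ s₀ : ℝ, 0 < s₀ ∧ ∀ s : ℝ, 0 < s → s ≤ s₀ →
      ∀ f₁ f₂ f₃ : ℂ → ℂ, Measurable f₁ → Measurable f₂ → Measurable f₃ →
      (∀ z, ‖f₁ z‖ ≤ 1) → (∀ z, ‖f₂ z‖ ≤ 1) → (∀ z, ‖f₃ z‖ ≤ 1) →
      (∀ z, D ≤ ‖z‖ → f₁ z = 0) → (∀ z, D ≤ ‖z‖ → f₂ z = 0) → (∀ z, D ≤ ‖z‖ → f₃ z = 0) →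
      ‖Lam ρ f₁ f₂ f₃ 0 - LamK ρ (gaussC s) f₁ f₂ f₃‖ ≤ ε :=
  SG.smoothG_of ρ hi (smoothS ρ hi h0 h1)

theorem Fin_hyps : Fin_Hyps := fun ρ hi h0 h1 =>
  ⟨smoothG ρ hi h0 h1, rl ρ hi, cl ρ (fun h => h0 (by rw [h]; rfl)) (fun h => h1 (by rw [h]; rfl))⟩

end Pool.Agent.H24.Tri
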