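import Pool.Agent.H24.Tri.DefsLoc
import Pool.Agent.H24.Tri.ToolA
import Pool.Agent.H24.Tri.ToolB

/-! Project TRI, module SL-8: assembly of SSloc (sections 5-8 of the paper proof). -/

set_option autoImplicit false

open MeasureTheory Set Complex Metric Filter Topology
open scoped Real ENNReal NNReal FourierTransform ComplexConjugate

namespace Pool.Agent.H24.Tri

/-- the inner form of `LamLoc` at displacement `w` -/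
noncomputable def JL (ρ : ℂ) (g₁ g₂ g₃ : ℂ → ℂ) (w : ℂ) : ℂ :=
  ∫ θ in Ioc 0 (2 * π), ∫ z, (psi0 z : ℂ) * g₁ z * g₂ (z + (cis θ + w)) *
    g₃ (z + ρ * (cis θ + w))

theorem sl8_lamLoc (ρ : ℂ) (k : ℂ → ℂ) (g₁ g₂ g₃ : ℂ → ℂ) :
    LamLoc ρ psi0 k g₁ g₂ g₃ = ∫ w, k w * JL ρ g₁ g₂ g₃ w := rfl

theorem sl8_cis_continuous : Continuous cis := by
  unfold cis
  fun_prop

theorem sl8_psi0_continuous : Continuous psi0 := psi0_smooth.continuous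

/-- restriction of the `z`-integral to the unit ball -/
theorem sl8_ball (F : ℂ → ℂ) :
    ∫ z, (psi0 z : ℂ) * F z = ∫ z in closedBall (0 : ℂ) 1, (psi0 z : ℂ) * F z := by
  symm
  apply setIntegral_eq_integral_of_forall_compl_eq_zero
  intro z hz
  have h1 : 1 ≤ ‖z‖ := by
    rw [mem_closedBall, dist_zero_right, not_le] at hz
    exact hz.le
  rw [psi0_zero z h1]
  simp

/-- continuity of parametric integrals against `psi0` -/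
theorem sl8_cont {X : Type*} [TopologicalSpace X] [FirstCountableTopology X]
    [LocallyCompactSpace X] (A : X → ℂ → ℂ) (hA : Continuous (Function.uncurry A)) :
    Continuous fun x => ∫ z, (psi0 z : ℂ) * A x z := by
  have h : (fun x => ∫ z, (psi0 z : ℂ) * A x z) =
      fun x => ∫ z in closedBall (0 : ℂ) 1, (psi0 z : ℂ) * A x z := by
    funext x
    exact sl8_ball (A x)
  rw [h]
  apply continuous_parametric_integral_of_continuous (μ := volume) _ (isCompact_closedBall 0 1)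
  exact (continuous_ofReal.comp (sl8_psi0_continuous.comp continuous_snd)).mul hA

theorem sl8_int (F : ℂ → ℂ) (hF : Continuous F) : Integrable fun z => (psi0 z : ℂ) * F z := by
  apply Continuous.integrable_of_hasCompactSupport
  · exact (continuous_ofReal.comp sl8_psi0_continuous).mul hF
  · apply HasCompactSupport.mul_right
    exact psi0_compact.comp_left (g := fun x : ℝ => (x : ℂ)) rfl

/-- additivity of the double integral -/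
theorem sl8_add (A B : ℝ → ℂ → ℂ) (hA : Continuous (Function.uncurry A))
    (hB : Continuous (Function.uncurry B)) :
    (∫ θ in Ioc 0 (2 * π), ∫ z, (psi0 z : ℂ) * (A θ z + B θ z)) =
      (∫ θ in Ioc 0 (2 * π), ∫ z, (psi0 z : ℂ) * A θ z) +
        ∫ θ in Ioc 0 (2 * π), ∫ z, (psi0 z : ℂ) * B θ z := by
  have h1 : ∀ θ, (∫ z, (psi0 z : ℂ) * (A θ z + B θ z)) =
      (∫ z, (psi0 z : ℂ) * A θ z) + ∫ z, (psi0 z : ℂ) * B θ z := by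
    intro θ
    have h0 := integral_add (sl8_int (A θ) (hA.comp (Continuous.prodMk_right θ)))
      (sl8_int (B θ) (hB.comp (Continuous.prodMk_right θ)))
    rw [← h0]
    congr 1
    funext z
    ring
  simp only [h1]
  have h2 : ∀ C : ℝ → ℂ → ℂ, Continuous (Function.uncurry C) →
      IntegrableOn (fun θ => ∫ z, (psi0 z : ℂ) * C θ z) (Ioc 0 (2 * π)) := by
    intro C hC
    exact ((sl8_cont C hC).continuousOn.integrableOn_compact isCompact_Icc).mono_set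
      Ioc_subset_Icc_self
  exact integral_add (h2 A hA) (h2 B hB)

theorem sl8_JL_eq (ρ : ℂ) (g₁ g₂ g₃ : ℂ → ℂ) (w : ℂ) : JL ρ g₁ g₂ g₃ w =
    ∫ θ in Ioc 0 (2 * π), ∫ z, (psi0 z : ℂ) * (g₁ z * g₂ (z + (cis θ + w)) *
      g₃ (z + ρ * (cis θ + w))) := by
  unfold JL
  congr 1
  funext θ
  congr 1
  funext z
  ring

theorem sl8_cont_JL (ρ : ℂ) (g₁ g₂ g₃ : ℂ → ℂ) (h₁ : Continuous g₁) (h₂ : Continuous g₂)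
    (h₃ : Continuous g₃) (w : ℂ) : Continuous (Function.uncurry fun (θ : ℝ) (z : ℂ) =>
      g₁ z * g₂ (z + (cis θ + w)) * g₃ (z + ρ * (cis θ + w))) := by
  have hc := sl8_cis_continuous
  apply Continuous.mul
  · apply Continuous.mul
    · exact h₁.comp continuous_snd
    · exact h₂.comp (continuous_snd.add ((hc.comp continuous_fst).add continuous_const))
  · exact h₃.comp (continuous_snd.add
      (continuous_const.mul ((hc.comp continuous_fst).add continuous_const)))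

theorem JL_add₃ (ρ : ℂ) (g₁ g₂ g₃ g₃' : ℂ → ℂ) (h₁ : Continuous g₁) (h₂ : Continuous g₂)
    (h₃ : Continuous g₃) (h₃' : Continuous g₃') (w : ℂ) :
    JL ρ g₁ g₂ (fun x => g₃ x + g₃' x) w = JL ρ g₁ g₂ g₃ w + JL ρ g₁ g₂ g₃' w := by
  rw [sl8_JL_eq, sl8_JL_eq, sl8_JL_eq, ← sl8_add _ _ (sl8_cont_JL ρ g₁ g₂ g₃ h₁ h₂ h₃ w)
    (sl8_cont_JL ρ g₁ g₂ g₃' h₁ h₂ h₃' w)]
  simp only [mul_add]

theorem JL_add₂ (ρ : ℂ) (g₁ g₂ g₂' g₃ : ℂ → ℂ) (h₁ : Continuous g₁) (h₂ : Continuous g₂)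
    (h₂' : Continuous g₂') (h₃ : Continuous g₃) (w : ℂ) :
    JL ρ g₁ (fun x => g₂ x + g₂' x) g₃ w = JL ρ g₁ g₂ g₃ w + JL ρ g₁ g₂' g₃ w := by
  rw [sl8_JL_eq, sl8_JL_eq, sl8_JL_eq, ← sl8_add _ _ (sl8_cont_JL ρ g₁ g₂ g₃ h₁ h₂ h₃ w)
    (sl8_cont_JL ρ g₁ g₂' g₃ h₁ h₂' h₃ w)]
  simp only [mul_add, add_mul]

theorem JL_add₁ (ρ : ℂ) (g₁ g₁' g₂ g₃ : ℂ → ℂ) (h₁ : Continuous g₁) (h₁' : Continuous g₁')
    (h₂ : Continuous g₂) (h₃ : Continuous g₃) (w : ℂ) :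
    JL ρ (fun x => g₁ x + g₁' x) g₂ g₃ w = JL ρ g₁ g₂ g₃ w + JL ρ g₁' g₂ g₃ w := by
  rw [sl8_JL_eq, sl8_JL_eq, sl8_JL_eq, ← sl8_add _ _ (sl8_cont_JL ρ g₁ g₂ g₃ h₁ h₂ h₃ w)
    (sl8_cont_JL ρ g₁' g₂ g₃ h₁' h₂ h₃ w)]
  simp only [mul_add, add_mul]

/-- `JL` is continuous in `w` -/
theorem JL_continuous (ρ : ℂ) (g₁ g₂ g₃ : ℂ → ℂ) (h₁ : Continuous g₁) (h₂ : Continuous g₂)
    (h₃ : Continuous g₃) : Continuous (JL ρ g₁ g₂ g₃) := by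
  have hc := sl8_cis_continuous
  have h : JL ρ g₁ g₂ g₃ = fun w => ∫ θ in Icc 0 (2 * π), ∫ z, (psi0 z : ℂ) *
      (g₁ z * g₂ (z + (cis θ + w)) * g₃ (z + ρ * (cis θ + w))) := by
    funext w
    rw [sl8_JL_eq, integral_Icc_eq_integral_Ioc]
  rw [h]
  apply continuous_parametric_integral_of_continuous (μ := volume) _ isCompact_Icc
  apply sl8_cont (X := ℂ × ℝ) (fun p z => g₁ z * g₂ (z + (cis p.2 + p.1)) *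
    g₃ (z + ρ * (cis p.2 + p.1)))
  have e1 : Continuous fun q : (ℂ × ℝ) × ℂ => cis q.1.2 :=
    hc.comp (continuous_snd.comp continuous_fst)
  have e2 : Continuous fun q : (ℂ × ℝ) × ℂ => q.1.1 := continuous_fst.comp continuous_fst
  apply Continuous.mul
  · apply Continuous.mul
    · exact h₁.comp continuous_snd
    · exact h₂.comp (continuous_snd.add (e1.add e2))
  · exact h₃.comp (continuous_snd.add (continuous_const.mul (e1.add e2)))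

theorem sl8_vol : (volume (Ioc (0 : ℝ) (2 * π))).toReal = 2 * π := by
  rw [Real.volume_Ioc, sub_zero, ENNReal.toReal_ofReal (by positivity)]

/-- `JL` is bounded -/
theorem JL_bound (ρ : ℂ) (g₁ g₂ g₃ : ℂ → ℂ) (B₁ B₂ B₃ : ℝ) (b₁ : ∀ x, ‖g₁ x‖ ≤ B₁)
    (b₂ : ∀ x, ‖g₂ x‖ ≤ B₂) (b₃ : ∀ x, ‖g₃ x‖ ≤ B₃) (w : ℂ) :
    ‖JL ρ g₁ g₂ g₃ w‖ ≤ (∫ z, psi0 z) * (B₁ * B₂ * B₃) * (2 * π) := by
  have n₁ : 0 ≤ B₁ := (norm_nonneg _).trans (b₁ 0)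
  have n₂ : 0 ≤ B₂ := (norm_nonneg _).trans (b₂ 0)
  have n₃ : 0 ≤ B₃ := (norm_nonneg _).trans (b₃ 0)
  have hpi : Integrable psi0 := sl8_psi0_continuous.integrable_of_hasCompactSupport psi0_compact
  have h1 : ∀ θ, ‖∫ z, (psi0 z : ℂ) * g₁ z * g₂ (z + (cis θ + w)) * g₃ (z + ρ * (cis θ + w))‖ ≤
      (∫ z, psi0 z) * (B₁ * B₂ * B₃) := by
    intro θ
    rw [← integral_mul_const]
    apply norm_integral_le_of_norm_le (hpi.mul_const _)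
    refine Eventually.of_forall fun z => ?_
    rw [norm_mul, norm_mul, norm_mul, Complex.norm_real, Real.norm_of_nonneg (psi0_nonneg z),
      mul_assoc, mul_assoc, mul_assoc]
    apply mul_le_mul_of_nonneg_left _ (psi0_nonneg z)
    exact mul_le_mul (b₁ z) (mul_le_mul (b₂ _) (b₃ _) (norm_nonneg _) n₂) (by positivity) n₁
  have h2 := norm_setIntegral_le_of_norm_le_const (μ := volume) (s := Ioc (0 : ℝ) (2 * π))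
    (C := (∫ z, psi0 z) * (B₁ * B₂ * B₃))
    (f := fun θ => ∫ z, (psi0 z : ℂ) * g₁ z * g₂ (z + (cis θ + w)) * g₃ (z + ρ * (cis θ + w)))
    (by rw [Real.volume_Ioc]; exact ENNReal.ofReal_lt_top) (fun θ _ => h1 θ)
  rw [measureReal_def, sl8_vol] at h2
  exact h2

/-! ### the kernel -/

theorem kR_integrable (R : ℝ) (hR : 0 < R) : Integrable (kR R) := by
  have h := ((nice_integrable kapC nice_kap).2.comp_smul (R := R) hR.ne').const_mul ((R : ℂ) ^ 2)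
  refine h.congr (Eventually.of_forall fun w => ?_)
  simp only [kR, Complex.real_smul]

theorem kR_norm (R : ℝ) (hR : 0 < R) : ∫ w, ‖kR R w‖ = ∫ w, ‖𝓕⁻ kapC w‖ := by
  have h := Measure.integral_comp_smul (volume : Measure ℂ) (fun x => ‖𝓕⁻ kapC x‖) R
  have h2 : ∀ w, ‖kR R w‖ = R ^ 2 * ‖𝓕⁻ kapC (R • w)‖ := by
    intro w
    simp only [kR, Complex.real_smul, norm_mul, norm_pow, Complex.norm_real,
      Real.norm_of_nonneg hR.le]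
  simp only [h2]
  rw [integral_const_mul, h, Complex.finrank_real_complex, smul_eq_mul, abs_of_pos (by positivity),
    ← mul_assoc, mul_inv_cancel₀ (by positivity), one_mul]

/-! ### the three positions -/

theorem JL_pos3 (ρ : ℂ) (g₁ g₂ g₃ : ℂ → ℂ) (w : ℂ) : JL ρ g₁ g₂ g₃ w =
    Iform ρ 1 0 g₁ (fun x => g₃ (x + ρ * w)) (fun x => g₂ (x + w)) := by
  unfold JL Iform
  congr 1
  funext θ
  congr 1
  funext z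
  have e1 : z + (cis θ + w) = z + 1 * cis θ + w := by ring
  have e2 : z + ρ * (cis θ + w) = z + ρ * cis θ + ρ * w := by ring
  have e3 : z + 0 * cis θ = z := by ring
  rw [e1, e2, e3]
  ring

theorem JL_pos2 (ρ : ℂ) (g₁ g₂ g₃ : ℂ → ℂ) (w : ℂ) : JL ρ g₁ g₂ g₃ w =
    Iform 1 ρ 0 g₁ (fun x => g₂ (x + w)) (fun x => g₃ (x + ρ * w)) := by
  unfold JL Iform
  congr 1
  funext θ
  congr 1
  funext z
  have e1 : z + (cis θ + w) = z + 1 * cis θ + w := by ring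
  have e2 : z + ρ * (cis θ + w) = z + ρ * cis θ + ρ * w := by ring
  have e3 : z + 0 * cis θ = z := by ring
  rw [e1, e2, e3]

theorem JL_pos1 (ρ : ℂ) (g₁ g₂ g₃ : ℂ → ℂ) (w : ℂ) : JL ρ g₁ g₂ g₃ w =
    Iform (-1) (ρ - 1) (-1) (fun x => g₂ (x + w)) g₁ (fun x => g₃ (x + ρ * w)) := by
  unfold JL Iform
  congr 1
  funext θ
  rw [← integral_sub_right_eq_self _ (cis θ)]
  congr 1
  funext z
  have e1 : z - cis θ + (cis θ + w) = z + w := by ring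
  have e2 : z - cis θ + ρ * (cis θ + w) = z + (ρ - 1) * cis θ + ρ * w := by ring
  have e3 : z + -1 * cis θ = z - cis θ := by ring
  rw [e1, e2, e3]
  ring

/-- `LamLoc` as integral of `JL` is controlled by pointwise bounds of `JL` -/
theorem lamLoc_sub_le (ρ : ℂ) (R : ℝ) (hR : 0 < R) (g₁ g₂ g₃ g₁' g₂' g₃' : ℂ → ℂ)
    (h₁ : Continuous g₁) (h₂ : Continuous g₂) (h₃ : Continuous g₃) (h₁' : Continuous g₁')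
    (h₂' : Continuous g₂') (h₃' : Continuous g₃') (B : ℝ)
    (b₁ : ∀ x, ‖g₁ x‖ ≤ B) (b₂ : ∀ x, ‖g₂ x‖ ≤ B) (b₃ : ∀ x, ‖g₃ x‖ ≤ B)
    (b₁' : ∀ x, ‖g₁' x‖ ≤ B) (b₂' : ∀ x, ‖g₂' x‖ ≤ B) (b₃' : ∀ x, ‖g₃' x‖ ≤ B) (δ : ℝ)
    (hδ : ∀ w, ‖JL ρ g₁ g₂ g₃ w - JL ρ g₁' g₂' g₃' w‖ ≤ δ) :
    ‖LamLoc ρ psi0 (kR R) g₁ g₂ g₃ - LamLoc ρ psi0 (kR R) g₁' g₂' g₃'‖ ≤
      (∫ w, ‖𝓕⁻ kapC w‖) * δ := by
  have hi : ∀ f₁ f₂ f₃ : ℂ → ℂ, Continuous f₁ → Continuous f₂ → Continuous f₃ →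
      (∀ x, ‖f₁ x‖ ≤ B) → (∀ x, ‖f₂ x‖ ≤ B) → (∀ x, ‖f₃ x‖ ≤ B) →
      Integrable fun w => kR R w * JL ρ f₁ f₂ f₃ w := by
    intro f₁ f₂ f₃ c₁ c₂ c₃ d₁ d₂ d₃
    exact (kR_integrable R hR).mul_bdd (c := (∫ z, psi0 z) * (B * B * B) * (2 * π))
      (JL_continuous ρ f₁ f₂ f₃ c₁ c₂ c₃).aestronglyMeasurable
      (Eventually.of_forall fun w => JL_bound ρ f₁ f₂ f₃ B B B d₁ d₂ d₃ w)
  rw [sl8_lamLoc, sl8_lamLoc, ← integral_sub (hi _ _ _ h₁ h₂ h₃ b₁ b₂ b₃)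
    (hi _ _ _ h₁' h₂' h₃' b₁' b₂' b₃'), ← kR_norm R hR, ← integral_mul_const]
  apply norm_integral_le_of_norm_le ((kR_integrable R hR).norm.mul_const _)
  refine Eventually.of_forall fun w => ?_
  rw [← mul_sub, norm_mul]
  exact mul_le_mul_of_nonneg_left (hδ w) (norm_nonneg _)

/-- SL-8: assembly of SSloc, the other modules being hypotheses -/
theorem ssloc_of
    (gp' : ∀ ρ : ℂ, ρ.im ≠ 0 → ρ.re ≠ 0 → ρ.re ≠ 1 →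
      ∀ D C c : ℝ, 0 < D → 0 < C → 0 < c → ∃ τ : ℝ, 0 < τ ∧ ∀ N₁ N₂ N₃ : ℂ → ℂ,
      Measurable N₁ → Measurable N₂ → Measurable N₃ →
      (∀ z, ‖N₁ z‖ ≤ C) → (∀ z, ‖N₂ z‖ ≤ C) → (∀ z, ‖N₃ z‖ ≤ C) →
      volume (resSet ρ D τ N₁ N₂ N₃) < ENNReal.ofReal c)
    (extract : ∀ (ρ : ℂ) (C₀ : ℝ), 0 < C₀ → ∀ (J : ℕ) (ε : ℝ), 0 < ε →
      ∃ c : ℝ, 0 < c ∧ ∀ τ : ℝ, 0 < τ → ∃ K₀ : ℝ, 1 ≤ K₀ ∧ ∀ K : ℝ, K₀ ≤ K → ∀ r : ℝ, 0 < r →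
      ∃ R₀ : ℝ, 1 ≤ R₀ ∧ ∀ R : ℝ, R₀ ≤ R → ∀ a₁ a₂ a₃ : ℂ → ℂ, Adm C₀ R a₁ → Adm C₀ R a₂ →
      Adm C₀ R a₃ → ∀ t₁ t₂ t₃ : ℝ, 0 < t₁ → 0 < t₂ → 0 < t₃ →
      (∀ t, (hset C₀ K R r t₁ a₁ t).card ≤ J) → (∀ t, (hset C₀ K R r t₂ a₂ t).card ≤ J) →
      (∀ t, (hset C₀ K R r t₃ a₃ t).card ≤ J) →
      ε ≤ ‖LamLoc ρ psi0 (kR R) (gh C₀ K R r t₁ a₁) (gh C₀ K R r t₂ a₂) (gh C₀ K R r t₃ a₃)‖ →
      ∃ N₁ N₂ N₃ : ℂ → ℂ, Measurable N₁ ∧ Measurable N₂ ∧ Measurable N₃ ∧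
        (∀ z, ‖N₁ z‖ ≤ 2 * (C₀ + 2)) ∧ (∀ z, ‖N₂ z‖ ≤ 2 * (C₀ + 2)) ∧
        (∀ z, ‖N₃ z‖ ≤ 2 * (C₀ + 2)) ∧
        ENNReal.ofReal c ≤ volume (resSet ρ 1 τ N₁ N₂ N₃))
    (light : ∀ α β γ : ℂ, α ≠ 0 → β ≠ α → ∀ C₀ : ℝ, 0 < C₀ →
      ∀ Ch Cg ε : ℝ, 0 < Ch → 0 < Cg → 0 < ε → ∃ th : ℝ, 0 < th ∧ th ≤ 1 ∧ ∀ K : ℝ, 1 ≤ K →
      ∃ r₀ : ℝ, 0 < r₀ ∧ ∀ r : ℝ, 0 < r → r ≤ r₀ → ∃ R₀ : ℝ, 1 ≤ R₀ ∧ ∀ R : ℝ, R₀ ≤ R →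
      ∀ a : ℂ → ℂ, Adm C₀ R a → ∀ h g : ℂ → ℂ, Measurable h → (∀ x, ‖h x‖ ≤ Ch) →
      (∀ x, ‖g x‖ ≤ Cg) → (∀ x y, ‖g x - g y‖ ≤ Cg * R * ‖x - y‖) →
      ‖Iform α β γ h (gl C₀ K R r th a) g‖ ≤ ε)
    (gl_lip : ∀ C₀ : ℝ, 0 < C₀ → ∀ th : ℝ, 0 < th → th ≤ 1 → ∃ CG : ℝ, 1 ≤ CG ∧
      ∀ K r : ℝ, 1 ≤ K → 0 < r → ∃ R₀ : ℝ, 1 ≤ R₀ ∧ ∀ R : ℝ, R₀ ≤ R → ∀ a : ℂ → ℂ, Adm C₀ R a →
      ContDiff ℝ ((⊤ : ℕ∞) : WithTop ℕ∞) (gl C₀ K R r th a) ∧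
      ContDiff ℝ ((⊤ : ℕ∞) : WithTop ℕ∞) (gh C₀ K R r th a) ∧
      (∀ x, ‖gl C₀ K R r th a x‖ ≤ CG) ∧ (∀ x, ‖gh C₀ K R r th a x‖ ≤ CG) ∧
      (∀ x y, ‖gl C₀ K R r th a x - gl C₀ K R r th a y‖ ≤ CG * R * ‖x - y‖) ∧
      (∀ x y, ‖gh C₀ K R r th a x - gh C₀ K R r th a y‖ ≤ CG * R * ‖x - y‖))
    (hset_card : ∀ C₀ : ℝ, 0 < C₀ → ∀ K r : ℝ, 1 ≤ K → 0 < r → ∃ R₀ : ℝ, 1 ≤ R₀ ∧
      ∀ R : ℝ, R₀ ≤ R → ∀ a : ℂ → ℂ, Adm C₀ R a → ∀ th : ℝ, 0 < th → ∀ t : ℂ,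
      ((hset C₀ K R r th a t).card : ℝ) * th ≤ 3)
    (adm_lip : ∀ C₀ : ℝ, 0 < C₀ → ∃ C : ℝ, 1 ≤ C ∧ ∀ R : ℝ, 0 < R → ∀ a : ℂ → ℂ,
      Adm C₀ R a → ∀ x y, ‖𝓕⁻ a x - 𝓕⁻ a y‖ ≤ C * R * ‖x - y‖)
    (gh_add_gl : ∀ C₀ K R r th : ℝ, 0 < C₀ → 1 ≤ K → 0 < R → 0 < r →
      ∀ a : ℂ → ℂ, Adm C₀ R a → ∀ x : ℂ,
      gh C₀ K R r th a x + gl C₀ K R r th a x = 𝓕⁻ a x)
    (gl_translate : ∀ (C₀ K R r th : ℝ) (a : ℂ → ℂ), Nice a → ∀ w x : ℂ,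
      gl C₀ K R r th (fun ξ => Complex.exp (((2 * π * (conj ξ * w).re : ℝ) : ℂ) * Complex.I) *
        a ξ) x = gl C₀ K R r th a (x + w))
    (adm_translate : ∀ (C₀ R : ℝ) (a : ℂ → ℂ), Adm C₀ R a → ∀ w : ℂ,
      Adm C₀ R (fun ξ => Complex.exp (((2 * π * (conj ξ * w).re : ℝ) : ℂ) * Complex.I) * a ξ))
    (ρ : ℂ) (hi : ρ.im ≠ 0) (h0 : ρ.re ≠ 0) (h1 : ρ.re ≠ 1) :
    ∀ C₀ ε : ℝ, 0 < C₀ → 0 < ε → ∃ R₀ : ℝ, 1 ≤ R₀ ∧ ∀ R : ℝ, R₀ ≤ R → ∀ a₁ a₂ a₃ : ℂ → ℂ,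
      Adm C₀ R a₁ → Adm C₀ R a₂ → Adm C₀ R a₃ →
      ‖LamLoc ρ psi0 (kR R) (𝓕⁻ a₁) (𝓕⁻ a₂) (𝓕⁻ a₃)‖ ≤ ε := by
  intro C₀ ε hC₀ hε
  have hρ0 : ρ ≠ 0 := fun h => hi (by rw [h]; simp)
  have hρ1 : ρ ≠ 1 := fun h => hi (by rw [h]; simp)
  set B := ∫ w, ‖𝓕⁻ kapC w‖ with hB
  have hB0 : 0 ≤ B := integral_nonneg fun w => norm_nonneg _
  set δ := ε / (6 * (B + 1)) with hδ
  have hδ0 : 0 < δ := by positivity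
  obtain ⟨C₁, hC₁, lip⟩ := adm_lip C₀ hC₀
  -- thresholds
  obtain ⟨t₃, ht₃, ht₃', L3⟩ := light ρ 1 0 hρ0 (Ne.symm hρ1) C₀ hC₀ 1 C₁ δ one_pos
    (by linarith) hδ0
  obtain ⟨G₃, hG₃, GL3⟩ := gl_lip C₀ hC₀ t₃ ht₃ ht₃'
  obtain ⟨t₂, ht₂, ht₂', L2⟩ := light 1 ρ 0 one_ne_zero hρ1 C₀ hC₀ 1 G₃ δ one_pos
    (by linarith) hδ0
  obtain ⟨G₂, hG₂, GL2⟩ := gl_lip C₀ hC₀ t₂ ht₂ ht₂'
  obtain ⟨t₁, ht₁, ht₁', L1⟩ := light (-1) (ρ - 1) (-1) (by simp)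
    (fun h => hρ0 (by linear_combination h)) C₀ hC₀ G₂ G₃ δ (by linarith) (by linarith) hδ0
  obtain ⟨G₁, hG₁, GL1⟩ := gl_lip C₀ hC₀ t₁ ht₁ ht₁'
  -- number of labels
  set J := ⌈3 / t₁ + 3 / t₂ + 3 / t₃⌉₊ with hJ
  obtain ⟨c, hc, ex⟩ := extract ρ C₀ hC₀ J (ε / 2) (by linarith)
  obtain ⟨τ, hτ, gp⟩ := gp' ρ hi h0 h1 1 (2 * (C₀ + 2)) c one_pos (by linarith) hc
  obtain ⟨K, hK, ex⟩ := ex τ hτ
  obtain ⟨r₁, hr₁, L1⟩ := L1 K hK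
  obtain ⟨r₂, hr₂, L2⟩ := L2 K hK
  obtain ⟨r₃, hr₃, L3⟩ := L3 K hK
  set r := min r₁ (min r₂ r₃) with hr
  have hr0 : 0 < r := lt_min hr₁ (lt_min hr₂ hr₃)
  obtain ⟨R₁, hR₁, L1⟩ := L1 r hr0 (min_le_left _ _)
  obtain ⟨R₂, hR₂, L2⟩ := L2 r hr0 ((min_le_right _ _).trans (min_le_left _ _))
  obtain ⟨R₃, hR₃, L3⟩ := L3 r hr0 ((min_le_right _ _).trans (min_le_right _ _))
  obtain ⟨R₄, hR₄, ex⟩ := ex K le_rfl r hr0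
  obtain ⟨R₅, hR₅, GL1⟩ := GL1 K r hK hr0
  obtain ⟨R₆, hR₆, GL2⟩ := GL2 K r hK hr0
  obtain ⟨R₇, hR₇, GL3⟩ := GL3 K r hK hr0
  obtain ⟨R₈, hR₈, HC⟩ := hset_card C₀ hC₀ K r hK hr0
  refine ⟨R₁ + R₂ + R₃ + R₄ + R₅ + R₆ + R₇ + R₈, by linarith, ?_⟩
  intro R hR a₁ a₂ a₃ A₁ A₂ A₃
  have hRpos : 0 < R := by linarith
  obtain ⟨sl₁, sh₁, bl₁, bh₁, ll₁, lh₁⟩ := GL1 R (by linarith) a₁ A₁
  obtain ⟨sl₂, sh₂, bl₂, bh₂, ll₂, lh₂⟩ := GL2 R (by linarith) a₂ A₂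
  obtain ⟨sl₃, sh₃, bl₃, bh₃, ll₃, lh₃⟩ := GL3 R (by linarith) a₃ A₃
  have ca₁ := nice_continuous a₁ A₁.nice
  have ca₂ := nice_continuous a₂ A₂.nice
  have ca₃ := nice_continuous a₃ A₃.nice
  have d₁ : 𝓕⁻ a₁ = fun x => gh C₀ K R r t₁ a₁ x + gl C₀ K R r t₁ a₁ x :=
    funext fun x => (gh_add_gl C₀ K R r t₁ hC₀ hK hRpos hr0 a₁ A₁ x).symm
  have d₂ : 𝓕⁻ a₂ = fun x => gh C₀ K R r t₂ a₂ x + gl C₀ K R r t₂ a₂ x :=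
    funext fun x => (gh_add_gl C₀ K R r t₂ hC₀ hK hRpos hr0 a₂ A₂ x).symm
  have d₃ : 𝓕⁻ a₃ = fun x => gh C₀ K R r t₃ a₃ x + gl C₀ K R r t₃ a₃ x :=
    funext fun x => (gh_add_gl C₀ K R r t₃ hC₀ hK hRpos hr0 a₃ A₃ x).symm
  -- pointwise bound
  have key : ∀ w, ‖JL ρ (𝓕⁻ a₁) (𝓕⁻ a₂) (𝓕⁻ a₃) w -
      JL ρ (gh C₀ K R r t₁ a₁) (gh C₀ K R r t₂ a₂) (gh C₀ K R r t₃ a₃) w‖ ≤ 3 * δ := by
    intro w
    have e3 : JL ρ (𝓕⁻ a₁) (𝓕⁻ a₂) (𝓕⁻ a₃) w = JL ρ (𝓕⁻ a₁) (𝓕⁻ a₂) (gh C₀ K R r t₃ a₃) w +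
        JL ρ (𝓕⁻ a₁) (𝓕⁻ a₂) (gl C₀ K R r t₃ a₃) w := by
      conv_lhs => rw [d₃]
      exact JL_add₃ ρ _ _ _ _ ca₁ ca₂ sh₃.continuous sl₃.continuous w
    have e2 : JL ρ (𝓕⁻ a₁) (𝓕⁻ a₂) (gh C₀ K R r t₃ a₃) w =
        JL ρ (𝓕⁻ a₁) (gh C₀ K R r t₂ a₂) (gh C₀ K R r t₃ a₃) w +
        JL ρ (𝓕⁻ a₁) (gl C₀ K R r t₂ a₂) (gh C₀ K R r t₃ a₃) w := by
      conv_lhs => rw [d₂]
      exact JL_add₂ ρ _ _ _ _ ca₁ sh₂.continuous sl₂.continuous sh₃.continuous w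
    have e1 : JL ρ (𝓕⁻ a₁) (gh C₀ K R r t₂ a₂) (gh C₀ K R r t₃ a₃) w =
        JL ρ (gh C₀ K R r t₁ a₁) (gh C₀ K R r t₂ a₂) (gh C₀ K R r t₃ a₃) w +
        JL ρ (gl C₀ K R r t₁ a₁) (gh C₀ K R r t₂ a₂) (gh C₀ K R r t₃ a₃) w := by
      conv_lhs => rw [d₁]
      exact JL_add₁ ρ _ _ _ _ sh₁.continuous sl₁.continuous sh₂.continuous sh₃.continuous w
    have tr : ∀ (t : ℝ) (a : ℂ → ℂ) (A : Adm C₀ R a) (v : ℂ),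
        (fun x => gl C₀ K R r t a (x + v)) = gl C₀ K R r t
          (fun ξ => Complex.exp (((2 * π * (conj ξ * v).re : ℝ) : ℂ) * Complex.I) * a ξ) :=
      fun t a A v => funext fun x => (gl_translate C₀ K R r t a A.nice v x).symm
    have b3 : ‖JL ρ (𝓕⁻ a₁) (𝓕⁻ a₂) (gl C₀ K R r t₃ a₃) w‖ ≤ δ := by
      rw [JL_pos3, tr t₃ a₃ A₃ (ρ * w)]
      apply L3 R (by linarith) _ (adm_translate C₀ R a₃ A₃ (ρ * w)) _ _ ca₁.measurable A₁.bound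
      · exact fun x => (A₂.bound _).trans hC₁
      · intro x y
        have := lip R hRpos a₂ A₂ (x + w) (y + w)
        rwa [add_sub_add_right_eq_sub] at this
    have b2 : ‖JL ρ (𝓕⁻ a₁) (gl C₀ K R r t₂ a₂) (gh C₀ K R r t₃ a₃) w‖ ≤ δ := by
      rw [JL_pos2, tr t₂ a₂ A₂ w]
      apply L2 R (by linarith) _ (adm_translate C₀ R a₂ A₂ w) _ _ ca₁.measurable A₁.bound
      · exact fun x => bh₃ _
      · intro x y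
        have := lh₃ (x + ρ * w) (y + ρ * w)
        rwa [add_sub_add_right_eq_sub] at this
    have b1 : ‖JL ρ (gl C₀ K R r t₁ a₁) (gh C₀ K R r t₂ a₂) (gh C₀ K R r t₃ a₃) w‖ ≤ δ := by
      rw [JL_pos1]
      apply L1 R (by linarith) _ A₁ _ _
      · exact (sh₂.continuous.comp (continuous_id.add continuous_const)).measurable
      · exact fun x => bh₂ _
      · exact fun x => bh₃ _
      · intro x y
        have := lh₃ (x + ρ * w) (y + ρ * w)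
        rwa [add_sub_add_right_eq_sub] at this
    have e : JL ρ (𝓕⁻ a₁) (𝓕⁻ a₂) (𝓕⁻ a₃) w -
        JL ρ (gh C₀ K R r t₁ a₁) (gh C₀ K R r t₂ a₂) (gh C₀ K R r t₃ a₃) w =
        JL ρ (gl C₀ K R r t₁ a₁) (gh C₀ K R r t₂ a₂) (gh C₀ K R r t₃ a₃) w +
        JL ρ (𝓕⁻ a₁) (gl C₀ K R r t₂ a₂) (gh C₀ K R r t₃ a₃) w +
        JL ρ (𝓕⁻ a₁) (𝓕⁻ a₂) (gl C₀ K R r t₃ a₃) w := by
      rw [e3, e2, e1]; ring
    rw [e]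
    calc _ ≤ _ := norm_add₃_le
      _ ≤ δ + δ + δ := add_le_add (add_le_add b1 b2) b3
      _ = 3 * δ := by ring
  have hsub := lamLoc_sub_le ρ R hRpos _ _ _ _ _ _ ca₁ ca₂ ca₃ sh₁.continuous sh₂.continuous
    sh₃.continuous (1 + G₁ + G₂ + G₃) (fun x => (A₁.bound x).trans (by linarith))
    (fun x => (A₂.bound x).trans (by linarith)) (fun x => (A₃.bound x).trans (by linarith))
    (fun x => (bh₁ x).trans (by linarith)) (fun x => (bh₂ x).trans (by linarith))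
    (fun x => (bh₃ x).trans (by linarith)) (3 * δ) key
  have hBδ : B * (3 * δ) ≤ ε / 2 := by
    rw [hδ, show B * (3 * (ε / (6 * (B + 1)))) = (B / (B + 1)) * (ε / 2) by field_simp; ring]
    have : B / (B + 1) ≤ 1 := by rw [div_le_one (by positivity)]; linarith
    nlinarith
  by_contra hcon
  rw [not_le] at hcon
  have hJ' : ∀ (t : ℝ) (a : ℂ → ℂ), 0 < t → Adm C₀ R a → 3 / t ≤ 3 / t₁ + 3 / t₂ + 3 / t₃ →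
      ∀ x, (hset C₀ K R r t a x).card ≤ J := by
    intro t a ht A hle x
    have h2 := HC R (by linarith) a A t ht x
    rw [← le_div_iff₀ ht] at h2
    have h3 := (h2.trans hle).trans (Nat.le_ceil _)
    exact_mod_cast h3
  have p1 : 0 < 3 / t₁ := by positivity
  have p2 : 0 < 3 / t₂ := by positivity
  have p3 : 0 < 3 / t₃ := by positivity
  obtain ⟨N₁, N₂, N₃, m₁, m₂, m₃, n₁, n₂, n₃, hv⟩ := ex R (by linarith) a₁ a₂ a₃ A₁ A₂ A₃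
    t₁ t₂ t₃ ht₁ ht₂ ht₃ (hJ' t₁ a₁ ht₁ A₁ (by linarith)) (hJ' t₂ a₂ ht₂ A₂ (by linarith))
    (hJ' t₃ a₃ ht₃ A₃ (by linarith)) (by
      have h5 := norm_sub_norm_le (LamLoc ρ psi0 (kR R) (𝓕⁻ a₁) (𝓕⁻ a₂) (𝓕⁻ a₃))
        (LamLoc ρ psi0 (kR R) (gh C₀ K R r t₁ a₁) (gh C₀ K R r t₂ a₂) (gh C₀ K R r t₃ a₃))
      linarith)
  exact absurd (gp N₁ N₂ N₃ m₁ m₂ m₃ n₁ n₂ n₃) (not_lt.2 hv)

end Pool.Agent.H24.Tri
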