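import Pool.Agent.H58.Tri.ExH
import Pool.Agent.H26.Tri.LL
import Pool.Agent.H60.Tri.LL2
import Pool.Agent.H72.Tri.ML
import Pool.Agent.H93.Tri.GlLip
import Pool.Agent.H24.Tri.LightOf
import Pool.Agent.H5.Tri.SL8

/-! Project TRI, module SL-8: final form of SSloc, only GP as a hypothesis. -/

set_option autoImplicit false

open MeasureTheory Set Complex Metric Filter Topology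
open scoped Real ENNReal NNReal FourierTransform ComplexConjugate

namespace Pool.Agent.H24.Tri

/-- section 7: the light part is negligible -/
theorem light (α β γ : ℂ) (hα : α ≠ 0) (hβ : β ≠ α) (C₀ : ℝ) (hC₀ : 0 < C₀) :
    ∀ Ch Cg ε : ℝ, 0 < Ch → 0 < Cg → 0 < ε → ∃ th : ℝ, 0 < th ∧ th ≤ 1 ∧ ∀ K : ℝ, 1 ≤ K →
    ∃ r₀ : ℝ, 0 < r₀ ∧ ∀ r : ℝ, 0 < r → r ≤ r₀ → ∃ R₀ : ℝ, 1 ≤ R₀ ∧ ∀ R : ℝ, R₀ ≤ R →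
    ∀ a : ℂ → ℂ, Adm C₀ R a → ∀ h g : ℂ → ℂ, Measurable h → (∀ x, ‖h x‖ ≤ Ch) →
      (∀ x, ‖g x‖ ≤ Cg) → (∀ x y, ‖g x - g y‖ ≤ Cg * R * ‖x - y‖) →
      ‖Iform α β γ h (gl C₀ K R r th a) g‖ ≤ ε :=
  light_of α β γ C₀ (LL α β γ hα hβ) (LL2 α hα) (ML C₀ hC₀) (gl_lip C₀ hC₀)

/-- SSloc for admissible symbols, GP as a hypothesis -/
theorem ssloc_of_gp
    (gp : ∀ ρ : ℂ, ρ.im ≠ 0 → ρ.re ≠ 0 → ρ.re ≠ 1 →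
      ∀ D C c : ℝ, 0 < D → 0 < C → 0 < c → ∃ τ : ℝ, 0 < τ ∧ ∀ N₁ N₂ N₃ : ℂ → ℂ,
      Measurable N₁ → Measurable N₂ → Measurable N₃ →
      (∀ z, ‖N₁ z‖ ≤ C) → (∀ z, ‖N₂ z‖ ≤ C) → (∀ z, ‖N₃ z‖ ≤ C) →
      volume {p : ℂ × ℝ | ‖p.1‖ ≤ D ∧ p.2 ∈ Ioc 0 (2 * π) ∧
        ‖N₁ p.1 + N₂ (p.1 + cis p.2) + N₃ (p.1 + ρ * cis p.2)‖ ≤ τ ∧
        |(conj (Complex.I * cis p.2) *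
          (N₂ (p.1 + cis p.2) + conj ρ * N₃ (p.1 + ρ * cis p.2))).re| ≤ τ ∧
        1 ≤ ‖N₂ (p.1 + cis p.2) + conj ρ * N₃ (p.1 + ρ * cis p.2)‖} < ENNReal.ofReal c)
    (ρ : ℂ) (hi : ρ.im ≠ 0) (h0 : ρ.re ≠ 0) (h1 : ρ.re ≠ 1) :
    ∀ C₀ ε : ℝ, 0 < C₀ → 0 < ε → ∃ R₀ : ℝ, 1 ≤ R₀ ∧ ∀ R : ℝ, R₀ ≤ R → ∀ a₁ a₂ a₃ : ℂ → ℂ,
      Nice a₁ → Nice a₂ → Nice a₃ →
      (∀ ξ, C₀ * R < ‖ξ‖ → a₁ ξ = 0) → (∀ ξ, C₀ * R < ‖ξ‖ → a₂ ξ = 0) →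
      (∀ ξ, C₀ * R < ‖ξ‖ → a₃ ξ = 0) →
      (∀ z, ‖𝓕⁻ a₁ z‖ ≤ 1) → (∀ z, ‖𝓕⁻ a₂ z‖ ≤ 1) → (∀ z, ‖𝓕⁻ a₃ z‖ ≤ 1) →
      ‖LamLoc ρ psi0 (kR R) (𝓕⁻ a₁) (𝓕⁻ a₂) (𝓕⁻ a₃)‖ ≤ ε := by
  intro C₀ ε hC₀ hε
  obtain ⟨R₀, hR₀, h⟩ := ssloc_of gp extract light gl_lip hset_card adm_lip gh_add_gl gl_translate
    adm_translate ρ hi h0 h1 C₀ ε hC₀ hε
  exact ⟨R₀, hR₀, fun R hR a₁ a₂ a₃ n₁ n₂ n₃ s₁ s₂ s₃ b₁ b₂ b₃ =>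
    h R hR a₁ a₂ a₃ ⟨n₁, s₁, b₁⟩ ⟨n₂, s₂, b₂⟩ ⟨n₃, s₃, b₃⟩⟩

end Pool.Agent.H24.Tri
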