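import Pool.Agent.H5.Tri.RigEnd
import Pool.Agent.H5.Tri.SL8Fin
import Pool.Agent.H36.Tri.GpEnd
import Pool.Agent.H24.Tri.GpLines
import Pool.Agent.H24.Tri.GpBil
import Pool.Agent.H65.Tri.SS

/-! Project TRI: rig, gp, ssloc, ss without hypotheses (statements as in the stubs). -/

set_option autoImplicit false

open MeasureTheory Set Complex Metric Filter Topology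
open scoped Real ENNReal NNReal FourierTransform ComplexConjugate

namespace Pool.Agent.H24.Tri

theorem gp (ρ : ℂ) (hi : ρ.im ≠ 0) (h0 : ρ.re ≠ 0) (h1 : ρ.re ≠ 1) :
    ∀ D C c : ℝ, 0 < D → 0 < C → 0 < c → ∃ τ : ℝ, 0 < τ ∧ ∀ N₁ N₂ N₃ : ℂ → ℂ,
      Measurable N₁ → Measurable N₂ → Measurable N₃ →
      (∀ z, ‖N₁ z‖ ≤ C) → (∀ z, ‖N₂ z‖ ≤ C) → (∀ z, ‖N₃ z‖ ≤ C) →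
      volume {p : ℂ × ℝ | ‖p.1‖ ≤ D ∧ p.2 ∈ Ioc 0 (2 * π) ∧
        ‖N₁ p.1 + N₂ (p.1 + cis p.2) + N₃ (p.1 + ρ * cis p.2)‖ ≤ τ ∧
        |(conj (Complex.I * cis p.2) *
          (N₂ (p.1 + cis p.2) + conj ρ * N₃ (p.1 + ρ * cis p.2))).re| ≤ τ ∧
        1 ≤ ‖N₂ (p.1 + cis p.2) + conj ρ * N₃ (p.1 + ρ * cis p.2)‖} < ENNReal.ofReal c :=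
  Pool.Agent.H36.Tri.gpMain ρ hi (rig ρ hi h0 h1) gp_lines gp_bilinear

theorem ssloc (ρ : ℂ) (hi : ρ.im ≠ 0) (h0 : ρ.re ≠ 0) (h1 : ρ.re ≠ 1) :
    ∀ C₀ ε : ℝ, 0 < C₀ → 0 < ε → ∃ R₀ : ℝ, 1 ≤ R₀ ∧ ∀ R : ℝ, R₀ ≤ R → ∀ a₁ a₂ a₃ : ℂ → ℂ,
      Nice a₁ → Nice a₂ → Nice a₃ →
      (∀ ξ, C₀ * R < ‖ξ‖ → a₁ ξ = 0) → (∀ ξ, C₀ * R < ‖ξ‖ → a₂ ξ = 0) →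
      (∀ ξ, C₀ * R < ‖ξ‖ → a₃ ξ = 0) →
      (∀ z, ‖𝓕⁻ a₁ z‖ ≤ 1) → (∀ z, ‖𝓕⁻ a₂ z‖ ≤ 1) → (∀ z, ‖𝓕⁻ a₃ z‖ ≤ 1) →
      ‖LamLoc ρ psi0 (kR R) (𝓕⁻ a₁) (𝓕⁻ a₂) (𝓕⁻ a₃)‖ ≤ ε :=
  ssloc_of_gp gp ρ hi h0 h1

theorem ss (ρ : ℂ) (hi : ρ.im ≠ 0) (h0 : ρ.re ≠ 0) (h1 : ρ.re ≠ 1) :
    ∀ C₀ V ε : ℝ, 0 < C₀ → 0 < V → 0 < ε → ∃ R₀ : ℝ, 1 ≤ R₀ ∧ ∀ R : ℝ, R₀ ≤ R →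
      ∀ a₁ a₂ a₃ : ℂ → ℂ, Nice a₁ → Nice a₂ → Nice a₃ →
      (∀ ξ, C₀ * R < ‖ξ‖ → a₁ ξ = 0) → (∀ ξ, C₀ * R < ‖ξ‖ → a₂ ξ = 0) →
      (∀ ξ, C₀ * R < ‖ξ‖ → a₃ ξ = 0) →
      (∀ z, ‖𝓕⁻ a₁ z‖ ≤ 1) → (∀ z, ‖𝓕⁻ a₂ z‖ ≤ 1) → (∀ z, ‖𝓕⁻ a₃ z‖ ≤ 1) →
      (∫ ξ, ‖a₁ ξ‖ ^ 2) ≤ V → (∫ ξ, ‖a₂ ξ‖ ^ 2) ≤ V → (∫ ξ, ‖a₃ ξ‖ ^ 2) ≤ V →
      ‖LamK ρ (kR R) (𝓕⁻ a₁) (𝓕⁻ a₂) (𝓕⁻ a₃)‖ ≤ ε :=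
  ss_of_ssloc ρ hi (ssloc ρ hi h0 h1)

end Pool.Agent.H24.Tri
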