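import Pool.Agent.H3.Tri.RigFD
import Pool.Agent.H24.Tri.RigSD

set_option autoImplicit false

open MeasureTheory Set Complex Metric Filter Topology
open scoped Real ENNReal NNReal ComplexConjugate

namespace Pool.Agent.H24.Tri

theorem cis_mul_conj_cis_rigEnd (θ : ℝ) : cis θ * conj (cis θ) = 1 := by
  have h : ‖cis θ‖ = 1 := by
    unfold cis
    exact Complex.norm_exp_ofReal_mul_I θ
  rw [Complex.mul_conj, Complex.normSq_eq_norm_sq, h]
  simp

theorem measurable_cis_rigEnd : Measurable cis := by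
  unfold cis
  fun_prop

/-- RIG (section 12) -/
theorem rig (ρ : ℂ) (hi : ρ.im ≠ 0) (h0 : ρ.re ≠ 0) (h1 : ρ.re ≠ 1)
    (N₁ N₂ N₃ : ℂ → ℂ) (m₁ : Measurable N₁) (m₂ : Measurable N₂) (m₃ : Measurable N₃)
    (C : ℝ) (b₁ : ∀ z, ‖N₁ z‖ ≤ C) (b₂ : ∀ z, ‖N₂ z‖ ≤ C) (b₃ : ∀ z, ‖N₃ z‖ ≤ C)
    (G : Set (ℂ × ℝ)) (hG : MeasurableSet G)
    (hsum : ∀ p ∈ G, N₁ p.1 + N₂ (p.1 + cis p.2) + N₃ (p.1 + ρ * cis p.2) = 0)
    (htor : ∀ p ∈ G, (conj (Complex.I * cis p.2) *
      (N₂ (p.1 + cis p.2) + conj ρ * N₃ (p.1 + ρ * cis p.2))).re = 0)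
    (hten : ∀ p ∈ G, N₂ (p.1 + cis p.2) + conj ρ * N₃ (p.1 + ρ * cis p.2) ≠ 0) :
    volume G = 0 := by
  by_contra hne
  have hpos : 0 < volume G := pos_iff_ne_zero.2 hne
  have hρ0 : conj ρ ≠ 0 := by
    intro h
    apply hi
    have := congrArg Complex.im h
    simpa using this
  have hρ1 : conj ρ - 1 ≠ 0 := by
    intro h
    apply hi
    have := congrArg Complex.im h
    simpa using this
  have hC : 0 ≤ C := (norm_nonneg _).trans (b₁ 0)
  -- the real number `t`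
  let t : ℂ × ℝ → ℝ := fun p => (conj (cis p.2) *
    (N₂ (p.1 + cis p.2) + conj ρ * N₃ (p.1 + ρ * cis p.2))).re
  have ht : Measurable t := by
    have hc := measurable_cis_rigEnd
    have e1 : Measurable fun p : ℂ × ℝ => cis p.2 := hc.comp measurable_snd
    have e2 : Measurable fun p : ℂ × ℝ => N₂ (p.1 + cis p.2) :=
      m₂.comp (measurable_fst.add e1)
    have e3 : Measurable fun p : ℂ × ℝ => N₃ (p.1 + ρ * cis p.2) :=
      m₃.comp (measurable_fst.add (e1.const_mul ρ))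
    have e4 : Measurable fun p : ℂ × ℝ => conj (cis p.2) :=
      Complex.continuous_conj.measurable.comp e1
    exact Complex.measurable_re.comp (e4.mul (e2.add (e3.const_mul _)))
  have hzN : ∀ p ∈ G, N₂ (p.1 + cis p.2) + conj ρ * N₃ (p.1 + ρ * cis p.2) = t p * cis p.2 := by
    intro p hp
    have hu := cis_mul_conj_cis_rigEnd p.2
    set w := N₂ (p.1 + cis p.2) + conj ρ * N₃ (p.1 + ρ * cis p.2) with hw
    have him : (conj (cis p.2) * w).im = 0 := by
      have h := htor p hp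
      have h2 : conj (Complex.I * cis p.2) * w = -Complex.I * (conj (cis p.2) * w) := by
        rw [map_mul, Complex.conj_I]
        ring
      rw [h2] at h
      simpa using h
    have h3 : conj (cis p.2) * w = ((t p : ℝ) : ℂ) := by
      apply Complex.ext
      · simp [t, hw]
      · rw [him]
        simp
    calc w = (cis p.2 * conj (cis p.2)) * w := by rw [hu, one_mul]
      _ = cis p.2 * (conj (cis p.2) * w) := by ring
      _ = t p * cis p.2 := by rw [h3]; ring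
  have ht0 : ∀ p ∈ G, t p ≠ 0 := by
    intro p hp h
    apply hten p hp
    rw [hzN p hp, h]
    simp
  -- the normalised functions
  let K₁ : ℂ → ℂ := fun z => N₁ z / (conj ρ - 1)
  let K₂ : ℂ → ℂ := fun z => -(N₂ z / conj ρ)
  let B : ℝ := C / ‖conj ρ - 1‖ + C / ‖conj ρ‖ + C
  have hB1 : ∀ z, ‖K₁ z‖ ≤ B := by
    intro z
    have h : ‖K₁ z‖ ≤ C / ‖conj ρ - 1‖ := by
      simp only [K₁, norm_div]
      gcongr
      exact b₁ z
    have h2 : 0 ≤ C / ‖conj ρ‖ := by positivity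
    simp only [B]
    linarith
  have hB2 : ∀ z, ‖K₂ z‖ ≤ B := by
    intro z
    have h : ‖K₂ z‖ ≤ C / ‖conj ρ‖ := by
      simp only [K₂, norm_neg, norm_div]
      gcongr
      exact b₂ z
    have h2 : 0 ≤ C / ‖conj ρ - 1‖ := by positivity
    simp only [B]
    linarith
  have hB3 : ∀ z, ‖N₃ z‖ ≤ B := by
    intro z
    have h := b₃ z
    have h2 : 0 ≤ C / ‖conj ρ - 1‖ := by positivity
    have h3 : 0 ≤ C / ‖conj ρ‖ := by positivity
    simp only [B]
    linarith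
  have h12 : ∀ p ∈ G, K₂ (p.1 + cis p.2) - K₁ p.1 =
      t p * cis p.2 / (conj ρ * (conj ρ - 1)) := by
    intro p hp
    rw [← hzN p hp]
    have hs : N₁ p.1 = -(N₂ (p.1 + cis p.2) + N₃ (p.1 + ρ * cis p.2)) := by
      linear_combination hsum p hp
    simp only [K₁, K₂]
    rw [hs]
    field_simp
    ring
  have h13 : ∀ p ∈ G, N₃ (p.1 + ρ * cis p.2) - K₁ p.1 = t p * cis p.2 / (conj ρ - 1) := by
    intro p hp
    rw [← hzN p hp]
    have hs : N₁ p.1 = -(N₂ (p.1 + cis p.2) + N₃ (p.1 + ρ * cis p.2)) := by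
      linear_combination hsum p hp
    simp only [K₁]
    rw [hs]
    field_simp
    ring
  obtain ⟨r₁, r₂, B₁, B₂, G', mr₁, mr₂, mB₁, mB₂, ⟨b, hb⟩, hG'G, hG'm, hG'pos, e1, e2, e3⟩ :=
    rigFD ρ hi h0 h1 K₁ K₂ N₃ (m₁.div_const _) (m₂.div_const _).neg m₃ B hB1 hB2 hB3 G hG hpos t ht
      ht0 h12 h13
  have hz := rigSD ρ hi r₁ r₂ B₁ B₂ mr₁ mr₂ mB₁ mB₂ b hb G' hG'm e1 e2 (by
    intro p hp
    by_contra hcon
    push Not at hcon
    apply ht0 p (hG'G hp)
    rw [e3 p hp, hcon.1, hcon.2]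
    simp)
  exact hG'pos.ne' hz

end Pool.Agent.H24.Tri
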